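import Mathlib

set_option autoImplicit false

/-!
# The least Hilbert function of fat points of arbitrary multiplicities

Let `K` be an infinite field, `n ≥ 1`, and let `m i`, `i < r`, be arbitrary multiplicities. Among
the Hilbert functions of `R / ⋂ i, 𝔭 i ^ m i`, for all choices of `r` different points of `ℙⁿ`
(multiplicity `m i` at the point `i`), there is a least one, namely

  `d ↦ ∑_{j ≤ d} C(n + j - 2, j) min (d + 1 - j, ∑ i, max (m i - j, 0))`,

and it is attained by points on a line. If all the multiplicities are equal to `μ ≥ 1`, it is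
attained only by sets of points on a line: this is forced by the value in the single degree `μ`.
For `m i = 2` this is the least Hilbert function of `r` double points,
`d ↦ min (d + 1, 2 r) + (n - 1) min (d, r)`, and only sets of points on a line attain it.

Lower bound: choose linear forms `A, B` such that `A` has no zero among the points and `B / A`
separates the points. A form `∑_s x ^ s g_s (A, B)`, where `s` runs through the monomials in
`x₂, …, xₙ` and `deg g_s < ∑ i, max (m i - |s|, 0)` (as polynomials in `B / A`), which vanishes to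
order `m i` at all the points is zero: expand it at the point `i` with `A = 1`, `B = t i + X` and
`x_j = v_j + X σ_j`; the coefficients of the monomials of the highest degree in `σ` show that
`(X - t i) ^ (m i - |s|)` divides `g_s` for the largest `|s|`.
-/

open MvPolynomial
open scoped LinearAlgebra.Projectivization

namespace Pool.Agent.Results.MP_676d90_ag.FatPointsLeastHilbertFunction

/-- The homogeneous prime ideal of a point of `ℙⁿ` over an infinite field: all the polynomials in
`x₀, …, xₙ` which vanish on the line of `Kⁿ⁺¹` given by the point. -/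
noncomputable def primeIdeal {K : Type} [Field K] {n : ℕ} (p : ℙ K (Fin (n + 1) → K)) :
    Ideal (MvPolynomial (Fin (n + 1)) K) where
  carrier := {F | ∀ w ∈ p.submodule, eval w F = 0}
  add_mem' := by
    intro F G hF hG w hw
    rw [map_add, hF w hw, hG w hw, add_zero]
  zero_mem' := by
    intro w _
    exact map_zero _
  smul_mem' := by
    intro c F hF w hw
    rw [smul_eq_mul, map_mul, hF w hw, mul_zero]

/-- The ideal `⋂ i, 𝔭 i ^ m i` of the fat points `∑ m i P i`. -/
noncomputable def fatIdeal {K : Type} [Field K] {n r : ℕ} (P : Fin r → ℙ K (Fin (n + 1) → K))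
    (m : Fin r → ℕ) : Ideal (MvPolynomial (Fin (n + 1)) K) :=
  ⨅ i, primeIdeal (P i) ^ m i

/-- The Hilbert function `d ↦ dim R_d - dim J_d` of `R / J`. -/
noncomputable def hilbert {K : Type} [Field K] {n : ℕ} (J : Ideal (MvPolynomial (Fin (n + 1)) K))
    (d : ℕ) : ℤ :=
  (Module.finrank K (homogeneousSubmodule (Fin (n + 1)) K d) : ℤ) -
    Module.finrank K (homogeneousSubmodule (Fin (n + 1)) K d ⊓ Submodule.restrictScalars K J :
      Submodule K (MvPolynomial (Fin (n + 1)) K))

/-- The set of the Hilbert functions of the fat points with multiplicities `m` in `ℙⁿ`. -/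
def hilbertFunctions (K : Type) [Field K] (n : ℕ) {r : ℕ} (m : Fin r → ℕ) : Set (ℕ → ℤ) :=
  {H | ∃ P : Fin r → ℙ K (Fin (n + 1) → K), Function.Injective P ∧ H = hilbert (fatIdeal P m)}

/-- `∑_{j ≤ d} C(n + j - 2, j) min (d + 1 - j, ∑ i, max (m i - j, 0))`. -/
def least (n : ℕ) {r : ℕ} (m : Fin r → ℕ) (d : ℕ) : ℕ :=
  ∑ j ∈ Finset.range (d + 1), (n + j - 2).choose j * min (d + 1 - j) (∑ i, (m i - j))

variable {K : Type} [Field K]

instance finDimHomog (n d : ℕ) :
    FiniteDimensional K (homogeneousSubmodule (Fin n) K d) := by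
  have : homogeneousSubmodule (Fin n) K d ≤ restrictTotalDegree (Fin n) K d := by
    intro F hF
    rw [mem_restrictTotalDegree]
    exact ((mem_homogeneousSubmodule _ _).1 hF).totalDegree_le
  exact Submodule.finiteDimensional_of_le this

/-! ### Linear forms -/

/-- the linear form with coefficients `c` -/
noncomputable def lin {N : ℕ} (c : Fin N → K) : MvPolynomial (Fin N) K := ∑ j, C (c j) * X j

lemma lin_homog {N : ℕ} (c : Fin N → K) : (lin c).IsHomogeneous 1 := by
  apply IsHomogeneous.sum
  intro j _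
  simpa using (isHomogeneous_C (Fin N) (c j)).mul (isHomogeneous_X K j)

lemma eval_lin {N : ℕ} (c v : Fin N → K) : eval v (lin c) = ∑ j, c j * v j := by
  rw [lin, map_sum]
  refine Finset.sum_congr rfl fun j _ => ?_
  rw [map_mul, eval_C, eval_X]

/-- A finite set of nonzero vectors has a linear form without zeros on it. -/
lemma exists_form [Infinite K] {N : ℕ} (T : Finset (Fin N → K)) (hT : ∀ v ∈ T, v ≠ 0) :
    ∃ c : Fin N → K, ∀ v ∈ T, ∑ j, c j * v j ≠ 0 := by
  classical
  set G : MvPolynomial (Fin N) K := ∏ v ∈ T, ∑ j, X j * C (v j) with hG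
  have hG0 : G ≠ 0 := by
    rw [hG, Finset.prod_ne_zero_iff]
    intro v hv h
    apply hT v hv
    ext j
    have h1 := congrArg (eval (Pi.single j (1 : K))) h
    rw [map_sum, map_zero] at h1
    simp only [map_mul, eval_X, eval_C, Pi.single_apply, ite_mul, one_mul, zero_mul,
      Finset.sum_ite_eq', Finset.mem_univ, if_true] at h1
    exact h1
  by_contra hcon
  push Not at hcon
  apply hG0
  apply MvPolynomial.funext
  intro c
  obtain ⟨v, hv, h⟩ := hcon c
  rw [map_zero, hG, map_prod]
  apply Finset.prod_eq_zero hv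
  rw [map_sum, ← h]
  apply Finset.sum_congr rfl
  intro j _
  simp

/-! ### Binary forms in two given forms -/

/-- the homogenisation of degree `m` of `f` in two forms `A`, `B` -/
noncomputable def hom2 {N : ℕ} (A B : MvPolynomial (Fin N) K) (m : ℕ) :
    Polynomial K →ₗ[K] MvPolynomial (Fin N) K :=
  (aeval ![B, A] : MvPolynomial (Fin 2) K →ₐ[K] MvPolynomial (Fin N) K).toLinearMap ∘ₗ
    Polynomial.homogenizeLM m

lemma hom2_apply {N : ℕ} (A B : MvPolynomial (Fin N) K) (m : ℕ) (f : Polynomial K) :
    hom2 A B m f = aeval ![B, A] (f.homogenize m) := rfl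

lemma hom2_homog {N : ℕ} {A B : MvPolynomial (Fin N) K} (hA : A.IsHomogeneous 1)
    (hB : B.IsHomogeneous 1) (m : ℕ) (f : Polynomial K) : (hom2 A B m f).IsHomogeneous m := by
  have h := (Polynomial.isHomogeneous_homogenize (n := m) f).aeval ![B, A] (n := 1) (fun i => by
    fin_cases i
    · exact hB
    · exact hA)
  rwa [one_mul] at h

lemma hom2_map {N m : ℕ} {A B : MvPolynomial (Fin N) K} {f : Polynomial K}
    (hf : f.natDegree ≤ m) {S : Type} [CommRing S] [Algebra K S]
    (θ : MvPolynomial (Fin N) K →ₐ[K] S) (hA : θ A = 1) :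
    θ (hom2 A B m f) = Polynomial.aeval (θ B) f := by
  rw [hom2_apply, ← AlgHom.comp_apply, MvPolynomial.comp_aeval]
  rw [Polynomial.aeval_homogenize_of_eq_one hf]
  · rfl
  · exact hA

lemma hom2_mul {N k l : ℕ} (A B : MvPolynomial (Fin N) K) {f g : Polynomial K}
    (hf : f.natDegree ≤ k) (hg : g.natDegree ≤ l) :
    hom2 A B (k + l) (f * g) = hom2 A B k f * hom2 A B l g := by
  rw [hom2_apply, hom2_apply, hom2_apply, Polynomial.homogenize_mul _ _ hf hg, map_mul]

lemma hom2_pow {N : ℕ} (A B : MvPolynomial (Fin N) K) (t : K) (e : ℕ) :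
    hom2 A B e ((Polynomial.X - Polynomial.C t) ^ e) = (B - C t * A) ^ e := by
  induction e with
  | zero =>
    rw [pow_zero, pow_zero, hom2_apply, Polynomial.homogenize_one, pow_zero, map_one]
  | succ e ih =>
    rw [pow_succ, hom2_mul A B (Polynomial.natDegree_pow_le.trans
      (by rw [Polynomial.natDegree_X_sub_C, mul_one])) (Polynomial.natDegree_X_sub_C_le t), ih,
      pow_succ]
    congr 1
    rw [hom2_apply, Polynomial.homogenize_sub, Polynomial.homogenize_X one_ne_zero,
      Polynomial.homogenize_C, map_sub]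
    simp [algebraMap_eq]

/-! ### The forms `∑ x^s g_s(A, B)` -/

/-- the multisets of at most `d` of the indices `0, …, N - 1` -/
abbrev Idx (N d : ℕ) := Σ j : Fin (d + 1), Sym (Fin N) j

/-- the monomial in the forms `l j` -/
noncomputable def mon {S : Type} [CommRing S] {N d : ℕ} (l : Fin N → S) (x : Idx N d) : S :=
  ((x.2 : Multiset (Fin N)).map l).prod

lemma map_mon {S T : Type} [CommRing S] [CommRing T] {N d : ℕ} (f : S →+* T) (l : Fin N → S)
    (x : Idx N d) : f (mon l x) = mon (fun j => f (l j)) x := by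
  unfold mon
  rw [map_multiset_prod, Multiset.map_map]
  rfl

/-- the forms `∑ x^s g_s(A, B)` -/
noncomputable def Psi {N : ℕ} (A B : MvPolynomial (Fin (N + 2)) K) (d : ℕ) :
    (Idx N d → Polynomial K) →ₗ[K] MvPolynomial (Fin (N + 2)) K where
  toFun g := ∑ x, mon (fun j => X j.succ.succ) x * hom2 A B (d - x.1) (g x)
  map_add' := by
    intro s s'
    simp only [Pi.add_apply, map_add, mul_add, Finset.sum_add_distrib]
  map_smul' := by
    intro c s
    simp only [Pi.smul_apply, map_smul, RingHom.id_apply, Finset.smul_sum, mul_smul_comm]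

lemma Psi_apply {N : ℕ} (A B : MvPolynomial (Fin (N + 2)) K) (d : ℕ)
    (g : Idx N d → Polynomial K) :
    Psi A B d g = ∑ x, mon (fun j => X j.succ.succ) x * hom2 A B (d - x.1) (g x) := rfl

/-! ### The expansion at a point -/

/-- `x_{j + 2}` near the point `v` -/
noncomputable def zc {N : ℕ} (v : Fin (N + 2) → K) (j : Fin N) :
    MvPolynomial (Fin N) (Polynomial K) :=
  C (Polynomial.C (v j.succ.succ)) + C Polynomial.X * X j

/-- the coordinates near the point `v` with `∑ c v = 1`, `∑ b v = t`, such that the form with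
coefficients `c` becomes `1`, the form with coefficients `b` becomes `t + X` -/
noncomputable def uc {N : ℕ} (c b v : Fin (N + 2) → K) (t : K) :
    Fin (N + 2) → MvPolynomial (Fin N) (Polynomial K) :=
  Fin.cons
    (C (Polynomial.C (c 0 * b 1 - c 1 * b 0)⁻¹) *
      (C (Polynomial.C (b 1)) * (1 - ∑ j : Fin N, C (Polynomial.C (c j.succ.succ)) * zc v j) -
        C (Polynomial.C (c 1)) * (C (Polynomial.C t + Polynomial.X) -
          ∑ j : Fin N, C (Polynomial.C (b j.succ.succ)) * zc v j)))
    (Fin.cons
      (C (Polynomial.C (c 0 * b 1 - c 1 * b 0)⁻¹) *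
        (C (Polynomial.C (c 0)) * (C (Polynomial.C t + Polynomial.X) -
          ∑ j : Fin N, C (Polynomial.C (b j.succ.succ)) * zc v j) -
        C (Polynomial.C (b 0)) * (1 - ∑ j : Fin N, C (Polynomial.C (c j.succ.succ)) * zc v j)))
      (zc v))

/-- the expansion at the point `v` -/
noncomputable def th {N : ℕ} (c b v : Fin (N + 2) → K) (t : K) :
    MvPolynomial (Fin (N + 2)) K →ₐ[K] MvPolynomial (Fin N) (Polynomial K) :=
  aeval (uc c b v t)

lemma th_X {N : ℕ} (c b v : Fin (N + 2) → K) (t : K) (j : Fin N) :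
    th c b v t (X j.succ.succ) = zc v j := by
  rw [th, aeval_X]
  rfl

lemma th_lin {N : ℕ} (c b v : Fin (N + 2) → K) (t : K) (a : Fin (N + 2) → K) :
    th c b v t (lin a) = C (Polynomial.C (a 0)) * uc c b v t 0 +
      C (Polynomial.C (a 1)) * uc c b v t 1 +
        ∑ j : Fin N, C (Polynomial.C (a j.succ.succ)) * zc v j := by
  have h : ∀ x : K, th c b v t (C x) = C (Polynomial.C x) := fun x => by
    rw [th, aeval_C]
    rfl
  have h0 : th c b v t (X 0) = uc c b v t 0 := by rw [th, aeval_X]
  have h1 : th c b v t (X (Fin.succ 0)) = uc c b v t (Fin.succ 0) := by rw [th, aeval_X]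
  have h2 : (1 : Fin (N + 2)) = Fin.succ 0 := rfl
  rw [lin, map_sum, Fin.sum_univ_succ, Fin.sum_univ_succ]
  simp only [map_mul, h, h0, h1, th_X]
  rw [← add_assoc, h2]

lemma th_A {N : ℕ} {c b v : Fin (N + 2) → K} {t : K} (hD : c 0 * b 1 - c 1 * b 0 ≠ 0) :
    th c b v t (lin c) = 1 := by
  have h1 : (C (Polynomial.C (c 0 * b 1 - c 1 * b 0)⁻¹) : MvPolynomial (Fin N) (Polynomial K)) *
      (C (Polynomial.C (c 0)) * C (Polynomial.C (b 1)) -
        C (Polynomial.C (c 1)) * C (Polynomial.C (b 0))) = 1 := by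
    rw [← map_mul, ← map_mul, ← map_mul, ← map_mul, ← map_sub, ← map_sub, ← map_mul, ← map_mul,
      inv_mul_cancel₀ hD, map_one, map_one]
  rw [th_lin]
  have e0 : uc c b v t 0 = C (Polynomial.C (c 0 * b 1 - c 1 * b 0)⁻¹) *
      (C (Polynomial.C (b 1)) * (1 - ∑ j : Fin N, C (Polynomial.C (c j.succ.succ)) * zc v j) -
        C (Polynomial.C (c 1)) * (C (Polynomial.C t + Polynomial.X) -
          ∑ j : Fin N, C (Polynomial.C (b j.succ.succ)) * zc v j)) := rfl
  have e1 : uc c b v t 1 = C (Polynomial.C (c 0 * b 1 - c 1 * b 0)⁻¹) *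
        (C (Polynomial.C (c 0)) * (C (Polynomial.C t + Polynomial.X) -
          ∑ j : Fin N, C (Polynomial.C (b j.succ.succ)) * zc v j) -
        C (Polynomial.C (b 0)) *
          (1 - ∑ j : Fin N, C (Polynomial.C (c j.succ.succ)) * zc v j)) := rfl
  rw [e0, e1]
  linear_combination (1 - ∑ j : Fin N, C (Polynomial.C (c j.succ.succ)) * zc v j) * h1

lemma th_B {N : ℕ} {c b v : Fin (N + 2) → K} {t : K} (hD : c 0 * b 1 - c 1 * b 0 ≠ 0) :
    th c b v t (lin b) = C (Polynomial.C t + Polynomial.X) := by
  have h1 : (C (Polynomial.C (c 0 * b 1 - c 1 * b 0)⁻¹) : MvPolynomial (Fin N) (Polynomial K)) *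
      (C (Polynomial.C (c 0)) * C (Polynomial.C (b 1)) -
        C (Polynomial.C (c 1)) * C (Polynomial.C (b 0))) = 1 := by
    rw [← map_mul, ← map_mul, ← map_mul, ← map_mul, ← map_sub, ← map_sub, ← map_mul, ← map_mul,
      inv_mul_cancel₀ hD, map_one, map_one]
  rw [th_lin]
  have e0 : uc c b v t 0 = C (Polynomial.C (c 0 * b 1 - c 1 * b 0)⁻¹) *
      (C (Polynomial.C (b 1)) * (1 - ∑ j : Fin N, C (Polynomial.C (c j.succ.succ)) * zc v j) -
        C (Polynomial.C (c 1)) * (C (Polynomial.C t + Polynomial.X) -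
          ∑ j : Fin N, C (Polynomial.C (b j.succ.succ)) * zc v j)) := rfl
  have e1 : uc c b v t 1 = C (Polynomial.C (c 0 * b 1 - c 1 * b 0)⁻¹) *
        (C (Polynomial.C (c 0)) * (C (Polynomial.C t + Polynomial.X) -
          ∑ j : Fin N, C (Polynomial.C (b j.succ.succ)) * zc v j) -
        C (Polynomial.C (b 0)) *
          (1 - ∑ j : Fin N, C (Polynomial.C (c j.succ.succ)) * zc v j)) := rfl
  rw [e0, e1]
  linear_combination (C (Polynomial.C t + Polynomial.X) -
    ∑ j : Fin N, C (Polynomial.C (b j.succ.succ)) * zc v j) * h1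

/-- modulo `X` the expansion is the evaluation at `v` -/
lemma th_zero {N : ℕ} {c b v : Fin (N + 2) → K} {t : K} (hD : c 0 * b 1 - c 1 * b 0 ≠ 0)
    (hc : ∑ j, c j * v j = 1) (hb : ∑ j, b j * v j = t) (F : MvPolynomial (Fin (N + 2)) K) :
    MvPolynomial.map (Polynomial.evalRingHom 0) (th c b v t F) = C (eval v F) := by
  have hz : ∀ j, MvPolynomial.map (Polynomial.evalRingHom (0 : K)) (zc v j) =
      C (v j.succ.succ) := by
    intro j
    unfold zc
    simp
  rw [Fin.sum_univ_succ, Fin.sum_univ_succ] at hc hb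
  have hc' : ∑ j : Fin N, c j.succ.succ * v j.succ.succ = 1 - c 0 * v 0 - c 1 * v 1 := by
    rw [← hc]
    simp only [Fin.succ_zero_eq_one]
    ring
  have hb' : ∑ j : Fin N, b j.succ.succ * v j.succ.succ = t - b 0 * v 0 - b 1 * v 1 := by
    rw [← hb]
    simp only [Fin.succ_zero_eq_one]
    ring
  have hsum : ∀ a : Fin (N + 2) → K, MvPolynomial.map (Polynomial.evalRingHom (0 : K))
      (∑ j : Fin N, C (Polynomial.C (a j.succ.succ)) * zc v j) =
        C (∑ j : Fin N, a j.succ.succ * v j.succ.succ) := by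
    intro a
    rw [map_sum, map_sum]
    refine Finset.sum_congr rfl fun j _ => ?_
    rw [map_mul, hz, map_C, map_mul]
    simp
  have hu : ∀ i, MvPolynomial.map (Polynomial.evalRingHom (0 : K)) (uc c b v t i) = C (v i) := by
    intro i
    refine Fin.cases ?_ (fun i => Fin.cases ?_ (fun j => hz j) i) i
    · have e0 : uc c b v t 0 = C (Polynomial.C (c 0 * b 1 - c 1 * b 0)⁻¹) *
        (C (Polynomial.C (b 1)) * (1 - ∑ j : Fin N, C (Polynomial.C (c j.succ.succ)) * zc v j) -
          C (Polynomial.C (c 1)) * (C (Polynomial.C t + Polynomial.X) -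
            ∑ j : Fin N, C (Polynomial.C (b j.succ.succ)) * zc v j)) := rfl
      rw [e0]
      simp only [map_mul, map_sub, map_one, hsum, map_C, Polynomial.coe_evalRingHom,
        Polynomial.eval_C, Polynomial.eval_add, Polynomial.eval_X, add_zero]
      rw [← map_one (C : K →+* MvPolynomial (Fin N) K), ← map_sub, ← map_sub, ← map_mul,
        ← map_mul, ← map_sub, ← map_mul, hc', hb']
      congr 1
      rw [inv_mul_eq_iff_eq_mul₀ (by simpa using hD)]
      ring
    · have e1 : uc c b v t (Fin.succ 0) = C (Polynomial.C (c 0 * b 1 - c 1 * b 0)⁻¹) *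
        (C (Polynomial.C (c 0)) * (C (Polynomial.C t + Polynomial.X) -
          ∑ j : Fin N, C (Polynomial.C (b j.succ.succ)) * zc v j) -
        C (Polynomial.C (b 0)) *
          (1 - ∑ j : Fin N, C (Polynomial.C (c j.succ.succ)) * zc v j)) := rfl
      rw [e1]
      simp only [map_mul, map_sub, map_one, hsum, map_C, Polynomial.coe_evalRingHom,
        Polynomial.eval_C, Polynomial.eval_add, Polynomial.eval_X, add_zero]
      rw [← map_one (C : K →+* MvPolynomial (Fin N) K), ← map_sub, ← map_sub, ← map_mul,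
        ← map_mul, ← map_sub, ← map_mul, hc', hb']
      congr 1
      rw [inv_mul_eq_iff_eq_mul₀ (by simpa using hD), Fin.succ_zero_eq_one]
      ring
  induction F using MvPolynomial.induction_on with
  | C a =>
    rw [eval_C, th, aeval_C]
    change MvPolynomial.map (Polynomial.evalRingHom (0 : K)) (C (Polynomial.C a)) = _
    simp
  | add p q hp hq => rw [map_add, map_add, hp, hq, map_add, map_add]
  | mul_X p i hp =>
    rw [map_mul, map_mul, hp, map_mul, map_mul, eval_X]
    congr 1
    rw [th, aeval_X, hu]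

lemma th_dvd {N : ℕ} {c b v : Fin (N + 2) → K} {t : K} (hD : c 0 * b 1 - c 1 * b 0 ≠ 0)
    (hc : ∑ j, c j * v j = 1) (hb : ∑ j, b j * v j = t) {p : ℙ K (Fin (N + 2) → K)}
    (hv : v ∈ p.submodule) {m : ℕ} {F : MvPolynomial (Fin (N + 2)) K}
    (hF : F ∈ primeIdeal (n := N + 1) p ^ m) :
    C (Polynomial.X ^ m) ∣ th c b v t F := by
  have h1 : Ideal.map (th c b v t).toRingHom (primeIdeal (n := N + 1) p) ≤
      Ideal.span {(C Polynomial.X : MvPolynomial (Fin N) (Polynomial K))} := by
    rw [Ideal.map_le_iff_le_comap]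
    intro G hG
    rw [Ideal.mem_comap, Ideal.mem_span_singleton, C_dvd_iff_dvd_coeff]
    intro i
    rw [Polynomial.X_dvd_iff, Polynomial.coeff_zero_eq_eval_zero]
    have h2 := congrArg (coeff i) (th_zero hD hc hb G)
    rw [hG v hv, map_zero, coeff_zero, coeff_map] at h2
    exact h2
  have h3 : Ideal.map (th c b v t).toRingHom (primeIdeal (n := N + 1) p ^ m) ≤
      Ideal.span {(C Polynomial.X : MvPolynomial (Fin N) (Polynomial K)) ^ m} := by
    rw [Ideal.map_pow, ← Ideal.span_singleton_pow]
    exact Ideal.pow_right_mono h1 m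
  rw [map_pow]
  exact Ideal.mem_span_singleton.1 (h3 (Ideal.mem_map_of_mem _ hF))

/-- The coefficients of a product of affine linear forms in degrees which are not smaller than the
number of factors. -/
lemma coeff_mon {S : Type} [CommRing S] {N : ℕ} (a : Fin N → S) (e : S) (s : Multiset (Fin N)) :
    ∀ α : Fin N →₀ ℕ, Multiset.card s ≤ α.degree →
      coeff α ((s.map fun j => (C (a j) + C e * X j : MvPolynomial (Fin N) S)).prod) =
        if α = Multiset.toFinsupp s then e ^ Multiset.card s else 0 := by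
  classical
  induction s using Multiset.induction_on with
  | empty =>
    intro α _
    rw [Multiset.map_zero, Multiset.prod_zero, coeff_one, Multiset.toFinsupp_zero,
      Multiset.card_zero, pow_zero]
    simp only [eq_comm]
  | cons i s ih =>
    intro α hα
    rw [Multiset.card_cons] at hα
    have hdeg : (Multiset.toFinsupp s).degree = Multiset.card s := by
      rw [Finsupp.degree_eq_sum, ← Multiset.toFinsupp_sum_eq]
      rw [Finsupp.sum_fintype _ _ (fun _ => rfl)]
      rfl
    have hcons : Multiset.toFinsupp (i ::ₘ s) = Finsupp.single i 1 + Multiset.toFinsupp s := by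
      rw [← Multiset.singleton_add, map_add, Multiset.toFinsupp_singleton]
    rw [Multiset.map_cons, Multiset.prod_cons, add_mul, coeff_add, coeff_C_mul, mul_assoc,
      coeff_C_mul, ih α (by omega), mul_comm (X i), coeff_mul_X']
    rw [if_neg (fun h => by rw [h, hdeg] at hα; omega), mul_zero, zero_add]
    by_cases hi : i ∈ α.support
    · rw [if_pos hi]
      have h1 : Finsupp.single i 1 ≤ α := by
        rw [Finsupp.single_le_iff]
        exact Nat.one_le_iff_ne_zero.2 (Finsupp.mem_support_iff.1 hi)
      obtain ⟨β, rfl⟩ := exists_add_of_le h1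
      rw [add_tsub_cancel_left]
      rw [map_add, Finsupp.degree_single] at hα
      rw [ih β (by omega), hcons]
      by_cases hb : β = Multiset.toFinsupp s
      · rw [if_pos hb, if_pos (by rw [hb]), Multiset.card_cons, pow_succ']
      · rw [if_neg hb, if_neg (fun h => hb (add_left_cancel h)), mul_zero]
    · rw [if_neg hi, mul_zero, if_neg]
      intro h
      apply hi
      rw [h, hcons, Finsupp.mem_support_iff, Finsupp.add_apply, Finsupp.single_eq_same]
      omega

lemma idx_ext {N d : ℕ} {x y : Idx N d}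
    (h : (x.2 : Multiset (Fin N)) = (y.2 : Multiset (Fin N))) : x = y := by
  obtain ⟨j, s⟩ := x
  obtain ⟨k, t⟩ := y
  have hjk : j = k := Fin.ext (by
    have h1 := s.2
    have h2 := t.2
    simp only at h
    rw [← h1, ← h2]
    exact congrArg Multiset.card h)
  subst hjk
  congr 1
  exact Subtype.ext h

lemma aeval_C_eq {N : ℕ} (q g : Polynomial K) :
    Polynomial.aeval (C q : MvPolynomial (Fin N) (Polynomial K)) g = C (g.comp q) := by
  rw [Polynomial.comp, Polynomial.hom_eval₂]
  rfl

lemma dvd_of_mem {N d : ℕ} {c b v : Fin (N + 2) → K} {t : K} (hD : c 0 * b 1 - c 1 * b 0 ≠ 0)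
    (hc : ∑ j, c j * v j = 1) (hb : ∑ j, b j * v j = t) {p : ℙ K (Fin (N + 2) → K)}
    (hv : v ∈ p.submodule) {m : ℕ} {g : Idx N d → Polynomial K}
    (hdeg : ∀ x, (g x).natDegree ≤ d - x.1)
    (hmem : Psi (lin c) (lin b) d g ∈ primeIdeal (n := N + 1) p ^ m) {x : Idx N d}
    (hz : ∀ y : Idx N d, (x.1 : ℕ) < y.1 → g y = 0) :
    (Polynomial.X - Polynomial.C t) ^ (m - x.1) ∣ g x := by
  classical
  have h1 := th_dvd hD hc hb hv hmem
  rw [C_dvd_iff_dvd_coeff] at h1
  have h2 := h1 (Multiset.toFinsupp (x.2 : Multiset (Fin N)))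
  have hdegx : (Multiset.toFinsupp (x.2 : Multiset (Fin N))).degree = x.1 := by
    rw [Finsupp.degree_eq_sum]
    have h3 := Multiset.toFinsupp_sum_eq (x.2 : Multiset (Fin N))
    rw [Finsupp.sum_fintype _ _ (fun _ => rfl)] at h3
    have h4 : Multiset.card (x.2 : Multiset (Fin N)) = x.1 := x.2.2
    exact h3.trans h4
  have hterm : ∀ y : Idx N d, coeff (Multiset.toFinsupp (x.2 : Multiset (Fin N)))
      (th c b v t (mon (fun j => X j.succ.succ) y * hom2 (lin c) (lin b) (d - y.1) (g y))) =
        if y = x then Polynomial.X ^ (x.1 : ℕ) *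
          (g x).comp (Polynomial.C t + Polynomial.X) else 0 := by
    intro y
    by_cases hy : (x.1 : ℕ) < y.1
    · rw [hz y hy, map_zero, mul_zero, map_zero, coeff_zero, if_neg]
      rintro rfl
      exact lt_irrefl _ hy
    · push Not at hy
      rw [map_mul, hom2_map (hdeg y) _ (th_A hD), th_B hD, aeval_C_eq,
        mul_comm, coeff_C_mul, mul_comm]
      have h3 : th c b v t (mon (fun j => X j.succ.succ) y) =
          (((y.2 : Multiset (Fin N)).map fun j => (C (Polynomial.C (v j.succ.succ)) +
            C Polynomial.X * X j : MvPolynomial (Fin N) (Polynomial K))).prod) := by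
        have h4 := map_mon (d := d) (th c b v t).toRingHom (fun j : Fin N => X j.succ.succ) y
        refine h4.trans ?_
        unfold mon
        congr 1
        refine Multiset.map_congr rfl fun j _ => ?_
        exact th_X c b v t j
      have h5 : Multiset.card (y.2 : Multiset (Fin N)) = y.1 := y.2.2
      rw [h3, coeff_mon _ _ _ _ (by rw [hdegx, h5]; exact hy)]
      by_cases hxy : y = x
      · subst hxy
        rw [if_pos rfl, if_pos rfl, h5]
      · rw [if_neg hxy, if_neg, zero_mul]
        intro h6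
        exact hxy (idx_ext (Multiset.toFinsupp.injective h6).symm)
  rw [Psi_apply, map_sum, coeff_sum, Finset.sum_congr rfl fun y _ => hterm y,
    Finset.sum_ite_eq', if_pos (Finset.mem_univ _)] at h2
  have h3 : Polynomial.X ^ (m - x.1) ∣ (g x).comp (Polynomial.C t + Polynomial.X) := by
    rcases Nat.le_total m x.1 with h4 | h4
    · rw [Nat.sub_eq_zero_of_le h4, pow_zero]
      exact one_dvd _
    · have h5 : m = x.1 + (m - x.1) := by omega
      rw [h5, pow_add] at h2
      exact (mul_dvd_mul_iff_left (pow_ne_zero _ Polynomial.X_ne_zero)).1 h2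
  obtain ⟨q, hq⟩ := h3
  refine ⟨q.comp (Polynomial.X - Polynomial.C t), ?_⟩
  have h4 := congrArg (fun z => z.comp (Polynomial.X - Polynomial.C t)) hq
  simp only [Polynomial.comp_assoc, Polynomial.add_comp, Polynomial.C_comp,
    Polynomial.X_comp, add_sub_cancel, Polynomial.comp_X, Polynomial.mul_comp,
    Polynomial.pow_comp] at h4
  exact h4

lemma psi_zero {N d r : ℕ} {c b : Fin (N + 2) → K} (hD : c 0 * b 1 - c 1 * b 0 ≠ 0)
    {v : Fin r → Fin (N + 2) → K} {P : Fin r → ℙ K (Fin (N + 2) → K)} {m : Fin r → ℕ}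
    (hv : ∀ i, v i ∈ (P i).submodule) (hc : ∀ i, ∑ j, c j * v i j = 1)
    (ht : Function.Injective fun i => ∑ j, b j * v i j) {g : Idx N d → Polynomial K}
    (hg : ∀ x, g x ∈ Polynomial.degreeLT K (min (d + 1 - x.1) (∑ i, (m i - x.1))))
    (hmem : Psi (lin c) (lin b) d g ∈ fatIdeal (n := N + 1) P m) : g = 0 := by
  classical
  have hdeg : ∀ x, (g x).natDegree ≤ d - x.1 := by
    intro x
    have h1 := hg x
    rw [Polynomial.mem_degreeLT] at h1
    by_cases h0 : g x = 0
    · rw [h0]
      simp
    · rw [Polynomial.degree_eq_natDegree h0] at h1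
      have h2 : (g x).natDegree < min (d + 1 - x.1) (∑ i, (m i - x.1)) := by exact_mod_cast h1
      have h3 := min_le_left (d + 1 - x.1) (∑ i, (m i - x.1))
      omega
  have key : ∀ k, ∀ x : Idx N d, d < x.1 + k → g x = 0 := by
    intro k
    induction k with
    | zero =>
      intro x hx
      exfalso
      have := x.1.2
      omega
    | succ k ih =>
      intro x hx
      have hz : ∀ y : Idx N d, (x.1 : ℕ) < y.1 → g y = 0 := fun y hy => ih y (by omega)
      have h1 : ∀ i, (Polynomial.X - Polynomial.C (∑ j, b j * v i j)) ^ (m i - x.1) ∣ g x :=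
        fun i => dvd_of_mem hD (hc i) rfl (hv i) hdeg ((Submodule.mem_iInf _).1 hmem i) hz
      have h2 : ∏ i, (Polynomial.X - Polynomial.C (∑ j, b j * v i j)) ^ (m i - x.1) ∣ g x := by
        refine Finset.prod_dvd_of_coprime (fun i _ j _ hij => ?_) fun i _ => h1 i
        refine IsCoprime.pow (Polynomial.isCoprime_X_sub_C_of_isUnit_sub ?_)
        rw [isUnit_iff_ne_zero]
        exact fun h0 => hij (ht (sub_eq_zero.1 h0))
      by_contra h0
      have h3 := Polynomial.natDegree_le_of_dvd h2 h0
      rw [Polynomial.natDegree_prod_of_monic _ _ fun i _ =>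
        (Polynomial.monic_X_sub_C _).pow _] at h3
      simp only [Polynomial.natDegree_pow, Polynomial.natDegree_X_sub_C, mul_one] at h3
      have h4 := hg x
      rw [Polynomial.mem_degreeLT, Polynomial.degree_eq_natDegree h0] at h4
      have h5 : (g x).natDegree < min (d + 1 - x.1) (∑ i, (m i - x.1)) := by exact_mod_cast h4
      have h6 := min_le_right (d + 1 - x.1) (∑ i, (m i - x.1))
      omega
  funext x
  exact key (d + 1) x (by omega)

/-! ### Dimensions -/

lemma fin_aux {V E : Type} [AddCommGroup V] [Module K V] [AddCommGroup E] [Module K E]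
    {U J : Submodule K V} [FiniteDimensional K U] (f : E →ₗ[K] V) (hfU : ∀ e, f e ∈ U)
    (hf : ∀ e, f e ∈ J → e = 0) :
    Module.finrank K E + Module.finrank K (U ⊓ J : Submodule K V) ≤ Module.finrank K U := by
  have hinj : Function.Injective f := by
    rw [← LinearMap.ker_eq_bot, LinearMap.ker_eq_bot']
    intro s hs
    exact hf s (by rw [hs]; exact J.zero_mem)
  have hle : f.range ≤ U := by
    rintro _ ⟨s, rfl⟩
    exact hfU s
  have i1 : FiniteDimensional K (U ⊓ J : Submodule K V) :=
    Submodule.finiteDimensional_of_le inf_le_left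
  have i2 : FiniteDimensional K f.range := Submodule.finiteDimensional_of_le hle
  have h1 := Submodule.finrank_sup_add_finrank_inf_eq f.range (U ⊓ J)
  have h2 : f.range ⊓ (U ⊓ J) = ⊥ := by
    rw [Submodule.eq_bot_iff]
    rintro _ ⟨⟨s, rfl⟩, hs⟩
    rw [hf s hs.2, map_zero]
  rw [h2, finrank_bot, add_zero, LinearMap.finrank_range_of_inj hinj] at h1
  rw [← h1]
  exact Submodule.finrank_mono (sup_le hle inf_le_left)

lemma fin_aux2 {V E : Type} [AddCommGroup V] [Module K V] [AddCommGroup E] [Module K E]
    {U J : Submodule K V} [FiniteDimensional K U] (f : E →ₗ[K] V) (hfU : ∀ e, f e ∈ U)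
    (hf : ∀ e, f e = 0 → e = 0) (hfJ : ∀ e, f e ∈ J) :
    Module.finrank K E ≤ Module.finrank K (U ⊓ J : Submodule K V) := by
  have i1 : FiniteDimensional K (U ⊓ J : Submodule K V) :=
    Submodule.finiteDimensional_of_le inf_le_left
  let g : E →ₗ[K] (U ⊓ J : Submodule K V) := f.codRestrict (U ⊓ J) fun e => ⟨hfU e, hfJ e⟩
  refine LinearMap.finrank_le_finrank_of_injective (f := g) ?_
  rw [← LinearMap.ker_eq_bot, LinearMap.ker_eq_bot']
  intro s hs
  exact hf s (congrArg Subtype.val hs)

lemma psi_homog {N d : ℕ} (c b : Fin (N + 2) → K) {g : Idx N d → Polynomial K} :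
    Psi (lin c) (lin b) d g ∈ homogeneousSubmodule (Fin (N + 2)) K d := by
  rw [mem_homogeneousSubmodule, Psi_apply]
  apply IsHomogeneous.sum
  intro x _
  have h1 : ∀ s : Multiset (Fin N), ((s.map fun j : Fin N =>
      (X j.succ.succ : MvPolynomial (Fin (N + 2)) K)).prod).IsHomogeneous (Multiset.card s) := by
    intro s
    induction s using Multiset.induction_on with
    | empty => simpa using isHomogeneous_one (Fin (N + 2)) K
    | cons i s ih =>
      rw [Multiset.map_cons, Multiset.prod_cons, Multiset.card_cons,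
        show Multiset.card s + 1 = 1 + Multiset.card s from add_comm _ _]
      exact (isHomogeneous_X K _).mul ih
  have h2 := (h1 (x.2 : Multiset (Fin N))).mul (hom2_homog (lin_homog c) (lin_homog b)
    (d - x.1) (g x))
  have h3 : Multiset.card (x.2 : Multiset (Fin N)) = x.1 := x.2.2
  rw [h3, show (x.1 : ℕ) + (d - x.1) = d by have := x.1.2; omega] at h2
  exact h2

lemma finrank_pi {N d : ℕ} (e : Idx N d → ℕ) :
    Module.finrank K (∀ x, Polynomial.degreeLT K (e x)) = ∑ x, e x := by
  have hfd : ∀ a : ℕ, FiniteDimensional K (Polynomial.degreeLT K a) := fun a =>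
    LinearEquiv.finiteDimensional (Polynomial.degreeLTEquiv K a).symm
  rw [Module.finrank_pi_fintype]
  refine Finset.sum_congr rfl fun x _ => ?_
  rw [(Polynomial.degreeLTEquiv K (e x)).finrank_eq, Module.finrank_fin_fun]

/-- inclusion of the polynomials of bounded degrees -/
noncomputable def incl {N d : ℕ} (e : Idx N d → ℕ) :
    (∀ x, Polynomial.degreeLT K (e x)) →ₗ[K] (Idx N d → Polynomial K) :=
  LinearMap.pi fun x => (Submodule.subtype _).comp (LinearMap.proj x)

lemma incl_inj {N d : ℕ} (e : Idx N d → ℕ) {s : ∀ x, Polynomial.degreeLT K (e x)}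
    (h : incl e s = 0) : s = 0 :=
  funext fun x => Subtype.ext (congrFun h x)

lemma lower [Infinite K] {N r : ℕ} (P : Fin r → ℙ K (Fin (N + 2) → K))
    (hP : Function.Injective P) (m : Fin r → ℕ) (d : ℕ) :
    ((∑ x : Idx N d, min (d + 1 - x.1) (∑ i, (m i - x.1)) : ℕ) : ℤ) ≤
      hilbert (n := N + 1) (fatIdeal P m) d := by
  classical
  -- the first linear form
  obtain ⟨c, hc⟩ := exists_form (insert (Pi.single 0 1) (Finset.univ.image fun i => (P i).rep)) (by
    intro v hv
    rcases Finset.mem_insert.1 hv with rfl | hv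
    · intro h
      have := congrFun h 0
      simp at this
    · obtain ⟨i, _, rfl⟩ := Finset.mem_image.1 hv
      exact (P i).rep_nonzero)
  have hc0 : c 0 ≠ 0 := by
    have := hc _ (Finset.mem_insert_self _ _)
    simpa [Pi.single_apply] using this
  have hcP : ∀ i, ∑ j, c j * (P i).rep j ≠ 0 := fun i =>
    hc _ (Finset.mem_insert_of_mem (Finset.mem_image_of_mem _ (Finset.mem_univ i)))
  -- the representatives with value `1`
  set v : Fin r → Fin (N + 2) → K := fun i => (∑ j, c j * (P i).rep j)⁻¹ • (P i).rep with hv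
  have hvmem : ∀ i, v i ∈ (P i).submodule := by
    intro i
    rw [Projectivization.submodule_eq]
    exact Submodule.smul_mem _ _ (Submodule.mem_span_singleton_self _)
  have hcv : ∀ i, ∑ j, c j * v i j = 1 := by
    intro i
    have h1 : ∀ j, c j * v i j = (∑ j, c j * (P i).rep j)⁻¹ * (c j * (P i).rep j) := by
      intro j
      simp only [hv, Pi.smul_apply, smul_eq_mul]
      ring
    rw [Finset.sum_congr rfl fun j _ => h1 j, ← Finset.mul_sum, inv_mul_cancel₀ (hcP i)]
  have hvinj : Function.Injective v := by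
    intro i j h
    apply hP
    rw [← (P i).mk_rep, ← (P j).mk_rep, Projectivization.mk_eq_mk_iff']
    refine ⟨(∑ k, c k * (P i).rep k) * (∑ k, c k * (P j).rep k)⁻¹, ?_⟩
    rw [mul_smul]
    change (∑ k, c k * (P i).rep k) • v j = (P i).rep
    rw [← h]
    change (∑ k, c k * (P i).rep k) • ((∑ k, c k * (P i).rep k)⁻¹ • (P i).rep) = (P i).rep
    rw [smul_smul, mul_inv_cancel₀ (hcP i), one_smul]
  -- the second linear form
  obtain ⟨b, hb⟩ := exists_form (insert (c 0 • Pi.single 1 1 - c 1 • Pi.single 0 1)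
      (((Finset.univ : Finset (Fin r × Fin r)).filter (fun x => x.1 ≠ x.2)).image
        fun x => v x.1 - v x.2)) (by
    intro u hu
    rcases Finset.mem_insert.1 hu with rfl | hu
    · intro h
      have := congrFun h 1
      simp at this
      exact hc0 this
    · obtain ⟨x, hx, rfl⟩ := Finset.mem_image.1 hu
      exact fun h => (Finset.mem_filter.1 hx).2 (hvinj (sub_eq_zero.1 h)))
  have hD : c 0 * b 1 - c 1 * b 0 ≠ 0 := by
    have := hb _ (Finset.mem_insert_self _ _)
    intro h
    apply this
    have h1 : ∀ j, b j * (c 0 • Pi.single 1 1 - c 1 • Pi.single 0 1 : Fin (N + 2) → K) j =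
        (if j = 1 then b j * c 0 else 0) - (if j = 0 then b j * c 1 else 0) := by
      intro j
      simp only [Pi.sub_apply, Pi.smul_apply, Pi.single_apply, smul_eq_mul, mul_ite, mul_one,
        mul_zero, mul_sub]
    simp only [h1, Finset.sum_sub_distrib, Finset.sum_ite_eq', Finset.mem_univ, if_true]
    rw [← h]
    ring
  have htinj : Function.Injective fun i => ∑ j, b j * v i j := by
    intro i j h
    by_contra hij
    have h1 := hb (v i - v j) (Finset.mem_insert_of_mem (Finset.mem_image.2 ⟨(i, j),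
      Finset.mem_filter.2 ⟨Finset.mem_univ _, hij⟩, rfl⟩))
    apply h1
    simp only [Pi.sub_apply, mul_sub, Finset.sum_sub_distrib]
    exact sub_eq_zero.2 h
  have h1 := fin_aux (K := K) (U := homogeneousSubmodule (Fin (N + 2)) K d)
    (J := Submodule.restrictScalars K (fatIdeal (n := N + 1) P m))
    ((Psi (lin c) (lin b) d).comp
      (incl fun x : Idx N d => min (d + 1 - x.1) (∑ i, (m i - x.1))))
    (fun e => psi_homog c b)
    (fun e he => incl_inj _ (psi_zero hD hvmem hcv htinj (fun x => (e x).2) he))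
  rw [finrank_pi] at h1
  unfold hilbert
  have h2 : ((∑ x : Idx N d, min (d + 1 - x.1) (∑ i, (m i - x.1)) : ℕ) : ℤ) +
      Module.finrank K (homogeneousSubmodule (Fin (N + 2)) K d ⊓
        Submodule.restrictScalars K (fatIdeal (n := N + 1) P m) :
          Submodule K (MvPolynomial (Fin (N + 2)) K)) ≤
      Module.finrank K (homogeneousSubmodule (Fin (N + 2)) K d) := by exact_mod_cast h1
  linarith

lemma least_eq {N r : ℕ} (m : Fin r → ℕ) (d : ℕ) :
    least (N + 1) m d = ∑ x : Idx N d, min (d + 1 - x.1) (∑ i, (m i - x.1)) := by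
  unfold least
  rw [Fintype.sum_sigma, ← Fin.sum_univ_eq_sum_range (fun j => (N + 1 + j - 2).choose j *
    min (d + 1 - j) (∑ i, (m i - j))) (d + 1)]
  refine Finset.sum_congr rfl fun j _ => ?_
  change _ = ∑ _y : Sym (Fin N) (j : ℕ), min (d + 1 - (j : ℕ)) (∑ i, (m i - (j : ℕ)))
  rw [Finset.sum_const, Finset.card_univ, Sym.card_sym_eq_multichoose, Fintype.card_fin,
    Nat.multichoose_eq, smul_eq_mul, show N + 1 + (j : ℕ) - 2 = N + (j : ℕ) - 1 by omega]

/-! ### Points on a line -/

/-- the point `(1 : t : 0 : ... : 0)` -/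
noncomputable def pt (N : ℕ) (t : K) : Fin (N + 2) → K := Fin.cons 1 (Fin.cons t fun _ => 0)

lemma pt_ne (N : ℕ) (t : K) : pt N t ≠ 0 := by
  intro h
  have := congrFun h 0
  exact one_ne_zero this

lemma lin_single {N : ℕ} (i : Fin N) : lin (Pi.single i 1 : Fin N → K) = X i := by
  classical
  rw [lin, Finset.sum_eq_single i]
  · rw [Pi.single_eq_same, map_one, one_mul]
  · intro j _ hj
    rw [Pi.single_eq_of_ne hj, map_zero, zero_mul]
  · intro h
    exact absurd (Finset.mem_univ i) h

lemma mem_prime {N : ℕ} {t : K} {F : MvPolynomial (Fin (N + 2)) K}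
    (h : ∀ a : K, eval (a • pt N t) F = 0) :
    F ∈ primeIdeal (n := N + 1) (Projectivization.mk K (pt N t) (pt_ne N t)) := by
  intro w hw
  rw [Projectivization.submodule_mk] at hw
  obtain ⟨a, rfl⟩ := Submodule.mem_span_singleton.1 hw
  exact h a

lemma term_mem {N d m : ℕ} {t : K} {x : Idx N d} {f : Polynomial K}
    (hf : (Polynomial.X - Polynomial.C t) ^ (m - x.1) ∣ f) (hdeg : f.natDegree ≤ d - x.1) :
    mon (fun j => X j.succ.succ) x * hom2 (X 0) (X 1) (d - x.1) f ∈
      primeIdeal (n := N + 1) (Projectivization.mk K (pt N t) (pt_ne N t)) ^ m := by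
  set 𝔭 := primeIdeal (n := N + 1) (Projectivization.mk K (pt N t) (pt_ne N t)) with h𝔭
  have h1 : ∀ s : Multiset (Fin N), ((s.map fun j : Fin N =>
      (X j.succ.succ : MvPolynomial (Fin (N + 2)) K)).prod) ∈ 𝔭 ^ Multiset.card s := by
    intro s
    induction s using Multiset.induction_on with
    | empty =>
      rw [Multiset.card_zero, pow_zero, Ideal.one_eq_top]
      exact Submodule.mem_top
    | cons i s ih =>
      rw [Multiset.map_cons, Multiset.prod_cons, Multiset.card_cons, pow_succ']
      refine Ideal.mul_mem_mul (mem_prime fun a => ?_) ih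
      rw [eval_X, Pi.smul_apply]
      exact mul_zero a
  have h2 : hom2 (X 0) (X 1) (d - x.1) f ∈ 𝔭 ^ (m - x.1) := by
    obtain ⟨q, rfl⟩ := hf
    by_cases h0 : q = 0
    · rw [h0, mul_zero, map_zero]
      exact Ideal.zero_mem _
    have h3 : ((Polynomial.X - Polynomial.C t) ^ (m - x.1)).natDegree = m - x.1 := by
      rw [Polynomial.natDegree_pow, Polynomial.natDegree_X_sub_C, mul_one]
    rw [Polynomial.natDegree_mul (pow_ne_zero _ (Polynomial.X_sub_C_ne_zero t)) h0, h3] at hdeg
    have h4 : d - x.1 = (m - x.1) + (d - x.1 - (m - x.1)) := by omega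
    rw [h4, hom2_mul (X 0) (X 1) (f := (Polynomial.X - Polynomial.C t) ^ (m - x.1)) (g := q)
      (by omega) (by omega), hom2_pow]
    refine Ideal.mul_mem_right _ _ (Ideal.pow_mem_pow (mem_prime fun a => ?_) _)
    rw [map_sub, map_mul, eval_X, eval_X, eval_C]
    change a * t - t * (a * 1) = 0
    ring
  have h3 : Multiset.card (x.2 : Multiset (Fin N)) = x.1 := x.2.2
  have h4 := Ideal.mul_mem_mul (h1 (x.2 : Multiset (Fin N))) h2
  rw [h3, ← pow_add] at h4
  exact Ideal.pow_le_pow_right (by omega) h4

lemma finrank_homog_le {N : ℕ} (d : ℕ) :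
    Module.finrank K (homogeneousSubmodule (Fin (N + 2)) K d) ≤
      ∑ x : Idx N d, (d + 1 - x.1) := by
  classical
  let φ : (Σ x : Idx N d, Fin (d + 1 - x.1)) → MvPolynomial (Fin (N + 2)) K := fun y =>
    mon (fun j => X j.succ.succ) y.1 * (X 0 ^ (d - (y.1.1 : ℕ) - (y.2 : ℕ)) * X 1 ^ (y.2 : ℕ))
  have h : homogeneousSubmodule (Fin (N + 2)) K d ≤ Submodule.span K (Set.range φ) := by
    intro F hF
    rw [mem_homogeneousSubmodule] at hF
    rw [F.as_sum]
    refine Submodule.sum_mem _ fun u hu => ?_
    have hu' : ∑ j, u j = d := by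
      have h1 := hF (mem_support_iff.1 hu)
      rw [Finsupp.weight_apply, Finsupp.sum_fintype _ _ (fun _ => by simp)] at h1
      rw [← h1]
      exact Finset.sum_congr rfl fun j _ => by simp
    rw [Fin.sum_univ_succ, Fin.sum_univ_succ] at hu'
    let f : Fin N →₀ ℕ := Finsupp.equivFunOnFinite.symm fun j => u j.succ.succ
    have hf : ∀ j, f j = u j.succ.succ := fun j => rfl
    have hcard : Multiset.card (Finsupp.toMultiset f) = ∑ j : Fin N, u j.succ.succ := by
      rw [Finsupp.card_toMultiset, Finsupp.sum_fintype _ _ (fun _ => rfl)]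
      rfl
    have hprod : ((Finsupp.toMultiset f).map fun j : Fin N =>
        (X j.succ.succ : MvPolynomial (Fin (N + 2)) K)).prod =
          ∏ j : Fin N, X j.succ.succ ^ u j.succ.succ := by
      rw [Finsupp.toMultiset_map, Finsupp.prod_toMultiset,
        Finsupp.prod_mapDomain_index (fun _ => pow_zero _) (fun _ _ _ => pow_add _ _ _),
        Finsupp.prod_fintype _ _ (fun _ => pow_zero _)]
      rfl
    obtain ⟨k, hk⟩ : ∃ k, k = ∑ j : Fin N, u j.succ.succ := ⟨_, rfl⟩
    rw [← hk] at hu' hcard
    let x : Idx N d := ⟨⟨k, by omega⟩, ⟨Finsupp.toMultiset f, hcard⟩⟩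
    have hx : (x.1 : ℕ) = k := rfl
    let y : Σ x : Idx N d, Fin (d + 1 - x.1) := ⟨x, ⟨u (Fin.succ 0), by rw [hx]; omega⟩⟩
    have h2 : monomial u (coeff u F) = coeff u F • φ y := by
      rw [monomial_eq, Finsupp.prod_fintype _ _ (fun _ => pow_zero _), Fin.prod_univ_succ,
        Fin.prod_univ_succ, smul_eq_C_mul]
      congr 1
      change _ = ((Finsupp.toMultiset f).map fun j : Fin N =>
        (X j.succ.succ : MvPolynomial (Fin (N + 2)) K)).prod *
          (X 0 ^ (d - k - u (Fin.succ 0)) * X (Fin.succ 0) ^ u (Fin.succ 0))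
      rw [hprod, show d - k - u (Fin.succ 0) = u 0 by omega]
      ring
    rw [h2]
    exact Submodule.smul_mem _ _ (Submodule.subset_span ⟨y, rfl⟩)
  have i1 : FiniteDimensional K (Submodule.span K (Set.range φ)) :=
    FiniteDimensional.span_of_finite K (Set.finite_range φ)
  refine (Submodule.finrank_mono h).trans ((finrank_range_le_card φ).trans (le_of_eq ?_))
  rw [Fintype.card_sigma]
  simp only [Fintype.card_fin]

lemma upper {N r : ℕ} (τ : Fin r → K) (m : Fin r → ℕ) (d : ℕ) :
    hilbert (n := N + 1) (fatIdeal (fun i => Projectivization.mk K (pt N (τ i)) (pt_ne N _)) m)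
      d ≤ ((∑ x : Idx N d, min (d + 1 - x.1) (∑ i, (m i - x.1)) : ℕ) : ℤ) := by
  classical
  set P : Fin r → ℙ K (Fin (N + 2) → K) := fun i => Projectivization.mk K (pt N (τ i)) (pt_ne N _)
    with hP
  let q : Idx N d → Polynomial K := fun x =>
    ∏ i, (Polynomial.X - Polynomial.C (τ i)) ^ (m i - x.1)
  have hqm : ∀ x, (q x).Monic := fun x =>
    Polynomial.monic_prod_of_monic _ _ fun i _ => (Polynomial.monic_X_sub_C _).pow _
  have hq : ∀ x, (q x).natDegree = ∑ i, (m i - x.1) := by
    intro x
    rw [Polynomial.natDegree_prod_of_monic _ _ fun i _ => (Polynomial.monic_X_sub_C _).pow _]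
    simp only [Polynomial.natDegree_pow, Polynomial.natDegree_X_sub_C, mul_one]
  let Q : (Idx N d → Polynomial K) →ₗ[K] (Idx N d → Polynomial K) :=
    LinearMap.pi fun x => (LinearMap.mulLeft K (q x)).comp (LinearMap.proj x)
  have hQ : ∀ g x, Q g x = q x * g x := fun g x => rfl
  have hdeg : ∀ (e : ∀ x : Idx N d, Polynomial.degreeLT K (d + 1 - x.1 - ∑ i, (m i - x.1)))
      (x : Idx N d), Q (incl _ e) x ∈ Polynomial.degreeLT K (d + 1 - x.1) := by
    intro e x
    have h1 : ((e x : Polynomial K)).degree < ((d + 1 - x.1 - ∑ i, (m i - x.1) : ℕ) : WithBot ℕ) :=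
      Polynomial.mem_degreeLT.1 (e x).2
    rw [hQ, Polynomial.mem_degreeLT]
    change (q x * (e x : Polynomial K)).degree < _
    by_cases h0 : (e x : Polynomial K) = 0
    · rw [h0, mul_zero, Polynomial.degree_zero]
      exact WithBot.bot_lt_coe _
    · rw [Polynomial.degree_eq_natDegree h0] at h1
      have h2 : ((e x : Polynomial K)).natDegree < d + 1 - x.1 - ∑ i, (m i - x.1) := by
        exact_mod_cast h1
      rw [Polynomial.degree_eq_natDegree (mul_ne_zero (hqm x).ne_zero h0),
        Polynomial.natDegree_mul (hqm x).ne_zero h0, hq]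
      have h3 : ∑ i, (m i - (x.1 : ℕ)) + ((e x : Polynomial K)).natDegree < d + 1 - x.1 := by
        omega
      exact_mod_cast h3
  have hnat : ∀ (e : ∀ x : Idx N d, Polynomial.degreeLT K (d + 1 - x.1 - ∑ i, (m i - x.1)))
      (x : Idx N d), (Q (incl _ e) x).natDegree ≤ d - x.1 := by
    intro e x
    have h1 := Polynomial.mem_degreeLT.1 (hdeg e x)
    by_cases h0 : Q (incl _ e) x = 0
    · rw [h0]
      simp
    · rw [Polynomial.degree_eq_natDegree h0] at h1
      have h2 : (Q (incl _ e) x).natDegree < d + 1 - x.1 := by exact_mod_cast h1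
      omega
  have h1 := fin_aux2 (K := K) (U := homogeneousSubmodule (Fin (N + 2)) K d)
    (J := Submodule.restrictScalars K (fatIdeal (n := N + 1) P m))
    (((Psi (lin (Pi.single 0 1)) (lin (Pi.single 1 1)) d).comp Q).comp
      (incl fun x : Idx N d => d + 1 - x.1 - ∑ i, (m i - x.1)))
    (fun e => psi_homog _ _)
    (fun e he => incl_inj _ (by
      have h2 : Q (incl _ e) = 0 := by
        refine psi_zero (N := N) (d := d) (r := 1) (c := Pi.single 0 1) (b := Pi.single 1 1)
          (v := fun _ => pt N 0) (P := fun _ => Projectivization.mk K (pt N 0) (pt_ne N 0))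
          (m := fun _ => d + 1) ?_ ?_ ?_ ?_ (fun x => ?_) ?_
        · rw [Pi.single_eq_same, Pi.single_eq_same, Pi.single_eq_of_ne (by
            intro h
            have := congrArg Fin.val h
            simp at this)]
          simp
        · intro i
          rw [Projectivization.submodule_mk]
          exact Submodule.mem_span_singleton_self _
        · intro i
          rw [← eval_lin, lin_single, eval_X]
          rfl
        · exact Function.injective_of_subsingleton _
        · rw [Fin.sum_univ_one, min_self]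
          exact hdeg e x
        · have h3 : Psi (lin (Pi.single 0 1)) (lin (Pi.single 1 1)) d (Q (incl _ e)) = 0 := he
          rw [h3]
          exact Ideal.zero_mem _
      funext x
      have h4 := congrFun h2 x
      rw [hQ] at h4
      exact (mul_eq_zero.1 h4).resolve_left (hqm x).ne_zero))
    (fun e => by
      change Psi (lin (Pi.single 0 1)) (lin (Pi.single 1 1)) d (Q (incl _ e)) ∈
        fatIdeal (n := N + 1) P m
      rw [lin_single, lin_single, Psi_apply]
      refine Ideal.sum_mem _ fun x _ => (Submodule.mem_iInf _).2 fun i => ?_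
      refine term_mem ?_ (hnat e x)
      rw [hQ]
      exact Dvd.dvd.mul_right (Finset.dvd_prod_of_mem _ (Finset.mem_univ i)) _)
  rw [finrank_pi] at h1
  have h2 := finrank_homog_le (K := K) (N := N) d
  have h3 : ∑ x : Idx N d, (d + 1 - x.1) = ∑ x : Idx N d, min (d + 1 - x.1)
      (∑ i, (m i - x.1)) + ∑ x : Idx N d, (d + 1 - x.1 - ∑ i, (m i - x.1)) := by
    rw [← Finset.sum_add_distrib]
    refine Finset.sum_congr rfl fun x _ => ?_
    omega
  unfold hilbert
  change (Module.finrank K (homogeneousSubmodule (Fin (N + 2)) K d) : ℤ) -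
    (Module.finrank K (homogeneousSubmodule (Fin (N + 2)) K d ⊓
      Submodule.restrictScalars K (fatIdeal (n := N + 1) P m) :
        Submodule K (MvPolynomial (Fin (N + 2)) K)) : ℤ) ≤ _
  omega

/-! ### The least element is attained by collinear points only -/

lemma collinear [Infinite K] {N r μ : ℕ} {P : Fin r → ℙ K (Fin (N + 2) → K)}
    (hP : Function.Injective P) (hμ : 1 ≤ μ) {m : Fin r → ℕ} (hm : ∀ i, m i = μ)
    (h : hilbert (n := N + 1) (fatIdeal P m) μ = (least (N + 1) m μ : ℤ)) {i j : Fin r}
    (hij : i ≠ j) (k : Fin r) : (P k).submodule ≤ (P i).submodule ⊔ (P j).submodule := by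
  classical
  by_contra hcon
  have hrep : (P k).rep ∉ (P i).submodule ⊔ (P j).submodule := by
    intro h1
    apply hcon
    rw [Projectivization.submodule_eq (P k), Submodule.span_singleton_le_iff_mem]
    exact h1
  obtain ⟨f, hf1, hf2⟩ := Submodule.exists_le_ker_of_notMem hrep
  set ℓ : MvPolynomial (Fin (N + 2)) K := lin fun a => f (Pi.single a 1) with hℓ
  have heval : ∀ w : Fin (N + 2) → K, eval w ℓ = f w := by
    intro w
    rw [hℓ, eval_lin]
    conv_rhs => rw [← Finset.univ_sum_single w, map_sum]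
    refine Finset.sum_congr rfl fun a _ => ?_
    have h1 : (Pi.single a (w a) : Fin (N + 2) → K) = w a • Pi.single a 1 := by
      rw [← Pi.single_smul, smul_eq_mul, mul_one]
    rw [h1, map_smul, smul_eq_mul, mul_comm]
  have hmem : ∀ a, (P a).submodule ≤ (P i).submodule ⊔ (P j).submodule →
      ℓ ^ μ ∈ primeIdeal (n := N + 1) (P a) ^ μ := by
    intro a ha
    refine Ideal.pow_mem_pow ?_ _
    intro w hw
    rw [heval]
    exact LinearMap.mem_ker.1 (hf2 (ha hw))
  let P' : Fin 2 → ℙ K (Fin (N + 2) → K) := ![P i, P j]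
  have hP' : Function.Injective P' := by
    intro a b hab
    fin_cases a <;> fin_cases b
    · rfl
    · exact absurd (hP hab) hij
    · exact absurd (hP hab).symm hij
    · rfl
  set I' := fatIdeal (n := N + 1) P' (fun _ => μ) with hI'
  have h1 : fatIdeal (n := N + 1) P m ≤ I' := by
    intro F hF
    rw [hI']
    refine (Submodule.mem_iInf _).2 fun a => ?_
    have h2 : ∀ b, F ∈ primeIdeal (n := N + 1) (P b) ^ μ := fun b => by
      have h3 := (Submodule.mem_iInf _).1 hF b
      rwa [hm b] at h3
    fin_cases a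
    · exact h2 i
    · exact h2 j
  have h2 : ℓ ^ μ ∈ I' := by
    refine (Submodule.mem_iInf _).2 fun a => ?_
    fin_cases a
    · exact hmem i le_sup_left
    · exact hmem j le_sup_right
  have h3 : ℓ ^ μ ∉ fatIdeal (n := N + 1) P m := by
    intro h4
    have h5 := (Submodule.mem_iInf _).1 h4 k
    rw [hm k] at h5
    have h6 : ℓ ^ μ ∈ primeIdeal (n := N + 1) (P k) := by
      have := Ideal.pow_le_pow_right hμ h5
      rwa [pow_one] at this
    have h7 := h6 (P k).rep (by
      rw [Projectivization.submodule_eq]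
      exact Submodule.mem_span_singleton_self _)
    rw [map_pow, heval] at h7
    exact hf1 (eq_zero_of_pow_eq_zero h7)
  have h4 : ℓ ^ μ ∈ homogeneousSubmodule (Fin (N + 2)) K μ := by
    rw [mem_homogeneousSubmodule]
    simpa using (lin_homog fun a => f (Pi.single a 1)).pow μ
  have h5 : (homogeneousSubmodule (Fin (N + 2)) K μ ⊓
      Submodule.restrictScalars K (fatIdeal (n := N + 1) P m) :
        Submodule K (MvPolynomial (Fin (N + 2)) K)) <
      homogeneousSubmodule (Fin (N + 2)) K μ ⊓ Submodule.restrictScalars K I' := by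
    refine lt_of_le_of_ne (inf_le_inf_left _ h1) fun h6 => h3 ?_
    have h7 : ℓ ^ μ ∈ (homogeneousSubmodule (Fin (N + 2)) K μ ⊓
        Submodule.restrictScalars K I' : Submodule K (MvPolynomial (Fin (N + 2)) K)) := ⟨h4, h2⟩
    rw [← h6] at h7
    exact h7.2
  have i1 : FiniteDimensional K (homogeneousSubmodule (Fin (N + 2)) K μ ⊓
      Submodule.restrictScalars K I' : Submodule K (MvPolynomial (Fin (N + 2)) K)) :=
    Submodule.finiteDimensional_of_le inf_le_left
  have h6 := Submodule.finrank_lt_finrank_of_lt h5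
  have h7 := lower P' hP' (fun _ => μ) μ
  rw [← least_eq] at h7
  have h8 : least (N + 1) m μ ≤ least (N + 1) (fun _ : Fin 2 => μ) μ := by
    unfold least
    refine Finset.sum_le_sum fun a ha => Nat.mul_le_mul le_rfl ?_
    rw [Finset.mem_range] at ha
    have h9 : ∑ _b : Fin 2, (μ - a) = 2 * (μ - a) := by
      rw [Finset.sum_const, Finset.card_univ, Fintype.card_fin, smul_eq_mul]
    rw [h9]
    rcases Nat.lt_or_ge a μ with h10 | h10
    · omega
    · have h11 : ∑ b, (m b - a) = 0 := Finset.sum_eq_zero fun b _ => by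
        rw [hm b]
        omega
      rw [h11]
      omega
  unfold hilbert at h h7
  change (Module.finrank K (homogeneousSubmodule (Fin (N + 2)) K μ) : ℤ) -
    (Module.finrank K (homogeneousSubmodule (Fin (N + 2)) K μ ⊓
      Submodule.restrictScalars K (fatIdeal (n := N + 1) P m) :
        Submodule K (MvPolynomial (Fin (N + 2)) K)) : ℤ) = _ at h
  change _ ≤ (Module.finrank K (homogeneousSubmodule (Fin (N + 2)) K μ) : ℤ) -
    (Module.finrank K (homogeneousSubmodule (Fin (N + 2)) K μ ⊓
      Submodule.restrictScalars K I' :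
        Submodule K (MvPolynomial (Fin (N + 2)) K)) : ℤ) at h7
  omega

/-- **The least Hilbert function of fat points.** -/
theorem result (K : Type) [Field K] [Infinite K] (n r : ℕ) (hn : 1 ≤ n) (m : Fin r → ℕ) :
    IsLeast (hilbertFunctions K n m) (fun d => (least n m d : ℤ)) ∧
      ∀ (P : Fin r → ℙ K (Fin (n + 1) → K)) (μ : ℕ), Function.Injective P → 1 ≤ μ →
        (∀ i, m i = μ) → hilbert (fatIdeal P m) μ = (least n m μ : ℤ) →
          ∀ i j k, i ≠ j → (P k).submodule ≤ (P i).submodule ⊔ (P j).submodule := by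
  classical
  obtain ⟨N, rfl⟩ : ∃ N, n = N + 1 := ⟨n - 1, by omega⟩
  refine ⟨⟨?_, ?_⟩, fun P μ hP hμ hm h i j k hij => collinear hP hμ hm h hij k⟩
  · let τ : Fin r → K := fun i => Infinite.natEmbedding K i
    have hτ : Function.Injective τ := fun i j h =>
      Fin.ext ((Infinite.natEmbedding K).injective h)
    have hinj : Function.Injective (fun i : Fin r =>
        Projectivization.mk K (pt N (τ i)) (pt_ne N _)) := by
      intro i j h
      apply hτ
      simp only [Projectivization.mk_eq_mk_iff'] at h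
      obtain ⟨a, ha⟩ := h
      have h0 := congrFun ha 0
      have h1 := congrFun ha 1
      change a * 1 = 1 at h0
      change a * τ j = τ i at h1
      rw [mul_one] at h0
      rw [h0, one_mul] at h1
      exact h1.symm
    refine ⟨_, hinj, ?_⟩
    funext d
    apply le_antisymm
    · rw [least_eq]
      exact lower _ hinj m d
    · rw [least_eq]
      exact upper τ m d
  · rintro H ⟨P, hP, rfl⟩
    intro d
    show ((least (N + 1) m d : ℕ) : ℤ) ≤ _
    rw [least_eq]
    exact lower P hP m d

end Pool.Agent.Results.MP_676d90_ag.FatPointsLeastHilbertFunction
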